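import Pool.Agent.Results.MP_e07dae_nt.AlmostAllBases
import Pool.Agent.R482.ST.Vec

/-!
# The Lang-Waldschmidt inequality for all bases near the vectors of a sequence

Let `f_k`, `k = 0, 1, 2, …`, be positive functions on `(a₀, ∞)`, `a₀ ≥ 0`, such that `f_k(t) / t` is nondecreasing, and such
that the sequence `f_k(t)` has exponent of convergence at most `τ` for each `t > a₀`: for instance `f_k(t) = v_k t`
(dilatations; `τ` the exponent of convergence of `v_k > 0`), `f_k(t) = t ^ (v_k)` for exponents `v_k ≥ 1` (`τ = 0`), or the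
orbits `f_k(t) = g (g (⋯ g (t)))` of any map `g` with `g(t) > t` and `g(t) / t` nondecreasing (`τ = 0`).
Let `n ≥ 1`, `σ ≥ 0` and `θ < 1`. For all vectors `u` in `ℝ^n` (maximum norm), `‖u‖ > a₀`, outside a set of Hausdorff dimension
at most `(n - 1 + n σ + τ) / (1 - θ)` and all constants `c`, for all but finitely many `k`, with `r = f_k(‖u‖)`: the
inequality of Lang and Waldschmidt with the constant `1 / 8` and without loss in the exponent holds for ALL tuples `x` of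
positive integers with `|x - (r / ‖u‖) u| ≤ c r ^ θ` and ALL tuples `b` of nonzero integers with `|b_i| ≤ r ^ σ`.
-/

set_option autoImplicit false

namespace Pool.Agent.Results.MP_e07dae_nt.StarshapedBases

open AlmostAllBases (P H maxExp Exceptional)

/-- the functions `f n` are positive on `(a, ∞)`, `a ≥ 0`, and `f n x / x` is nondecreasing there -/
def Starshaped (a : ℝ) (f : ℕ → ℝ → ℝ) : Prop :=
  0 ≤ a ∧ ∀ n : ℕ, ∀ x y : ℝ, a < x → x ≤ y → 0 < f n x ∧ f n x / x ≤ f n y / y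

/-- for each `x > a` the exponent of convergence of the sequence `f n x` is at most `τ` -/
def ExpLe (a : ℝ) (f : ℕ → ℝ → ℝ) (τ : ℝ) : Prop :=
  ∀ x : ℝ, a < x → ∀ t : ℝ, τ < t → Summable (fun n : ℕ => (f n x) ^ (-t))

/-- the components of `x` differ by at most `ρ` from those of `(g ‖u‖ / ‖u‖) u` -/
def Near {n : ℕ} (g : ℝ → ℝ) (ρ : ℝ) (u : Fin n → ℝ) (x : Fin n → ℕ) : Prop :=
  ∀ i, |(x i : ℝ) - g ‖u‖ / ‖u‖ * u i| ≤ ρ

/-- **Theorem.** Let `n ≥ 1`, `σ ≥ 0`, `f` starshaped functions on `(a, ∞)` of exponent of convergence at most `τ ≥ 0` and `θ < 1`.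
There is a set `E` of Hausdorff dimension at most `(n - 1 + n σ + τ) / (1 - θ)` such that for each `u` outside `E`, `‖u‖ > a`,
each `c` and all but finitely many `k`, `|P(x, b) - 1| ≥ (1/8) max |b_j| / H(x, b)` for ALL tuples `x` of positive integers near
`(r / ‖u‖) u`, `r = f_k(‖u‖)` (`Near`, with `c r ^ θ`), and ALL tuples `b` of nonzero integers with `|b_j| ≤ r ^ σ`.
The functions `v_n x`, `v_n > 0`, are starshaped on `(0, ∞)`, of exponent `τ` if `v` has exponent of convergence at most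
`τ`; the functions `x ^ (v_n)`, `v_n ≥ 1`, are starshaped on `(1, ∞)`, of exponent `0` if the sums of `exp (-t v_n)` converge
for `t > 0`; and the iterates of a map `g` with `g(x) > x` for `x > a` and `g(x) / x` nondecreasing are starshaped on
`(a, ∞)`, of exponent `0`. -/
theorem result :
    (∀ (n : ℕ) (a : ℝ) (f : ℕ → ℝ → ℝ) (τ θ σ : ℝ), 1 ≤ n → Starshaped a f → 0 ≤ τ → ExpLe a f τ → θ < 1 → 0 ≤ σ →
      ∃ E : Set (Fin n → ℝ), dimH E ≤ ENNReal.ofReal (((n : ℝ) - 1 + n * σ + τ) / (1 - θ)) ∧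
        ∀ u : Fin n → ℝ, a < ‖u‖ → u ∉ E → ∀ c : ℝ, ∃ k₀ : ℕ, ∀ k : ℕ, k₀ ≤ k → ∀ x : Fin n → ℕ, (∀ i, 1 ≤ x i) →
          Near (f k) (c * (f k ‖u‖) ^ θ) u x → ∀ b : Fin n → ℤ, (∀ i, b i ≠ 0) → (∀ i, |(b i : ℝ)| ≤ (f k ‖u‖) ^ σ) →
            1 / 8 * (maxExp b : ℝ) / (H x b : ℝ) ≤ |P x b - 1|) ∧
    (∀ (v : ℕ → ℝ) (τ : ℝ), (∀ n, 0 < v n) → (∀ t : ℝ, τ < t → Summable (fun n : ℕ => (v n) ^ (-t))) →
      Starshaped 0 (fun n x => v n * x) ∧ ExpLe 0 (fun n x => v n * x) τ) ∧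
    (∀ v : ℕ → ℝ, (∀ n, 1 ≤ v n) → (∀ t : ℝ, 0 < t → Summable fun n : ℕ => Real.exp (-(t * v n))) →
      Starshaped 1 (fun n x => x ^ (v n)) ∧ ExpLe 1 (fun n x => x ^ (v n)) 0) ∧
    (∀ (a : ℝ) (g : ℝ → ℝ), 0 ≤ a → (∀ x y : ℝ, a < x → x ≤ y → g x / x ≤ g y / y) → (∀ x : ℝ, a < x → x < g x) →
      Starshaped a (fun n x => g^[n] x) ∧ ExpLe a (fun n x => g^[n] x) 0) := by
  refine ⟨fun n a f τ θ σ hn hf hτ hE hθ hσ => ?_, Pool.Agent.R482.ST.ex_mul, Pool.Agent.R482.ST.ex_pow, Pool.Agent.R482.ST.ex_orbit⟩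
  classical
  have hn' : (1 : ℝ) ≤ n := by exact_mod_cast hn
  have hn0 : (0 : ℝ) ≤ (n : ℝ) - 1 := by linarith
  obtain ⟨E, h1, h2⟩ := Pool.Agent.R482.ST.vec_prop (ι := Fin n)
    (fun z X => ∃ x : Fin n → ℕ, (∀ i, 1 ≤ x i ∧ (x i : ℤ) = z i) ∧ ∃ b : Fin n → ℤ, (∀ i, b i ≠ 0) ∧
      (∀ i, |(b i : ℝ)| ≤ (max X 0) ^ σ) ∧ |P x b - 1| < 1 / 8 * (maxExp b : ℝ) / (H x b : ℝ))
    (fun z X Y hXY ⟨x, h1, b, h2, h3, h4⟩ => ⟨x, h1, b, h2, fun i => (h3 i).trans (Real.rpow_le_rpow (le_max_right _ _)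
      (max_le_max hXY le_rfl) hσ), h4⟩)
    (s := (n : ℝ) - 1 + n * σ) (by positivity) (fun ε hε => by
      refine ⟨2 ^ n, fun A hA => ?_⟩
      have hA1 : (1 : ℝ) ≤ A := by exact_mod_cast hA
      have hA0 : (0 : ℝ) < A := by linarith
      obtain ⟨hfin, hcard⟩ := AlmostAllBases.result n A ⌊(A : ℝ) ^ σ⌋₊ hn 0 le_rfl
      have hsub : {z : Fin n → ℤ | (∀ i, |z i| ≤ (A : ℤ)) ∧ ∃ x : Fin n → ℕ, (∀ i, 1 ≤ x i ∧ (x i : ℤ) = z i) ∧
          ∃ b : Fin n → ℤ, (∀ i, b i ≠ 0) ∧ (∀ i, |(b i : ℝ)| ≤ (max (A : ℝ) 0) ^ σ) ∧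
            |P x b - 1| < 1 / 8 * (maxExp b : ℝ) / (H x b : ℝ)} ⊆
          (fun x : Fin n → ℕ => fun i => (x i : ℤ)) '' (Exceptional n A ⌊(A : ℝ) ^ σ⌋₊ 0) := by
        rintro z ⟨h1, x, h2, b, h3, h4, h5⟩
        refine ⟨x, ⟨fun i => ⟨(h2 i).1, ?_⟩, b, fun i => ⟨h3 i, ?_⟩, ?_⟩, funext fun i => (h2 i).2⟩
        · have h6 := h1 i
          rw [← (h2 i).2] at h6
          have h7 := le_trans (le_abs_self _) h6
          exact_mod_cast h7
        · apply Nat.le_floor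
          have h6 := h4 i
          rw [max_eq_left hA0.le] at h6
          rw [Nat.cast_natAbs, Int.cast_abs]
          exact h6
        · rw [add_zero, Real.rpow_one]
          exact h5
      have h3 := Set.ncard_le_ncard hsub (hfin.image _)
      have h4 := h3.trans (Set.ncard_image_le hfin)
      have h5 : ((⌊(A : ℝ) ^ σ⌋₊ : ℕ) : ℝ) ≤ (A : ℝ) ^ σ := Nat.floor_le (by positivity)
      obtain ⟨m, rfl⟩ : ∃ m, n = m + 1 := ⟨n - 1, by omega⟩
      calc _ ≤ (((2 * ⌊(A : ℝ) ^ σ⌋₊) ^ (m + 1) * A ^ (m + 1 - 1) : ℕ) : ℝ) := by exact_mod_cast h4.trans hcard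
        _ = (2 * (⌊(A : ℝ) ^ σ⌋₊ : ℝ)) ^ (m + 1) * (A : ℝ) ^ m := by
            push_cast
            rfl
        _ ≤ (2 * (A : ℝ) ^ σ) ^ (m + 1) * (A : ℝ) ^ m :=
            mul_le_mul_of_nonneg_right (pow_le_pow_left₀ (by positivity) (by linarith) _) (by positivity)
        _ = 2 ^ (m + 1) * (A : ℝ) ^ (((m + 1 : ℕ) : ℝ) - 1 + ((m + 1 : ℕ) : ℝ) * σ) := by
            rw [mul_pow, ← Real.rpow_natCast ((A : ℝ) ^ σ) (m + 1), ← Real.rpow_mul hA0.le,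
              show ((m + 1 : ℕ) : ℝ) - 1 + ((m + 1 : ℕ) : ℝ) * σ = σ * ((m + 1 : ℕ) : ℝ) + (m : ℝ) by push_cast; ring,
              Real.rpow_add hA0, Real.rpow_natCast (A : ℝ) m]
            ring
        _ ≤ 2 ^ (m + 1) * (A : ℝ) ^ (((m + 1 : ℕ) : ℝ) - 1 + ((m + 1 : ℕ) : ℝ) * σ + ε) := by
            apply mul_le_mul_of_nonneg_left _ (by positivity)
            exact Real.rpow_le_rpow_of_exponent_le hA1 (by linarith)) f a τ θ hf hτ hE hθ
  refine ⟨E, h1, fun u hu huE c => ?_⟩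
  obtain ⟨k₀, hk⟩ := h2 u hu huE c
  refine ⟨k₀, fun k hk1 x hx hnear b hb0 hb1 => ?_⟩
  by_contra hcon
  push Not at hcon
  have hpos : 0 < f k ‖u‖ := (hf.2 k _ _ hu le_rfl).1
  refine hk k hk1 (fun i => (x i : ℤ)) (fun i => ?_) ⟨x, fun i => ⟨hx i, rfl⟩, b, hb0, fun i => ?_, hcon⟩
  · rw [Int.cast_natCast]
    exact hnear i
  · rw [max_eq_left hpos.le]
    exact hb1 i

end Pool.Agent.Results.MP_e07dae_nt.StarshapedBases
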