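import Pool.Agent.Results.MP_e07dae_nt.WindowsWithoutExceptions
import Pool.Agent.R482.ST.Star

/-!
# The Lang-Waldschmidt inequality without exceptions near powers, orbits and other sequences

Let `f_k`, `k = 0, 1, 2, …`, be positive functions on `(a₀, ∞)`, `a₀ ≥ 0`, such that `f_k(t) / t` is nondecreasing, and such
that the sequence `f_k(t)` has exponent of convergence at most `τ` for each `t > a₀`: for instance `f_k(t) = v_k t`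
(dilatations; `τ` the exponent of convergence of `v_k > 0`), `f_k(t) = t ^ (v_k)` for exponents `v_k ≥ 1` (`τ = 0`), or the
orbits `f_k(t) = g (g (⋯ g (t)))` of any map `g` with `g(t) > t` and `g(t) / t` nondecreasing (`τ = 0`).
Let `θ < 1`. For `n ≥ 1`, `σ ≥ 0` and all `α > a₀` outside a set of Hausdorff dimension at most `(1/2 + n σ + τ) / (1 - θ)`, for
all `c` and all but finitely many `k`, the inequality `|P(a, b) - 1| ≥ (1/2) max |b_j| / H(a, b)` (no loss in the exponent) holds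
for ALL tuples `a` of `n` positive integers with `|a_1 ⋯ a_n - f_k(α)| ≤ c f_k(α) ^ θ` and ALL tuples `b` of nonzero integers with
`|b_j| ≤ (a_1 ⋯ a_n) ^ σ`. For all `α` outside ONE set of dimension at most `(1/2 + τ) / (1 - θ)` this is true for ALL `n`, with
some `σ = σ(α, n) > 0`.
-/

set_option autoImplicit false

namespace Pool.Agent.Results.MP_e07dae_nt.StarshapedWindows

open Finset Filter Topology
open WindowsWithoutExceptions (P H maxExp Exc count)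

/-- the functions `f n` are positive on `(a, ∞)`, `a ≥ 0`, and `f n x / x` is nondecreasing there -/
def Starshaped (a : ℝ) (f : ℕ → ℝ → ℝ) : Prop :=
  0 ≤ a ∧ ∀ n : ℕ, ∀ x y : ℝ, a < x → x ≤ y → 0 < f n x ∧ f n x / x ≤ f n y / y

/-- for each `x > a` the exponent of convergence of the sequence `f n x` is at most `τ` -/
def ExpLe (a : ℝ) (f : ℕ → ℝ → ℝ) (τ : ℝ) : Prop :=
  ∀ x : ℝ, a < x → ∀ t : ℝ, τ < t → Summable (fun n : ℕ => (f n x) ^ (-t))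

lemma win {n : ℕ} (hn : 1 ≤ n) {σ : ℝ} (hσ : 0 ≤ σ) {a : ℝ} {f : ℕ → ℝ → ℝ} {τ θ : ℝ} (hf : Starshaped a f) (hτ : 0 ≤ τ)
    (hE : ExpLe a f τ) (hθ : θ < 1) :
    ∃ E : Set ℝ, dimH E ≤ ENNReal.ofReal ((1 / 2 + n * σ + τ) / (1 - θ)) ∧ ∀ α : ℝ, a < α → α ∉ E → ∀ c : ℝ,
      ∃ k₀ : ℕ, ∀ k : ℕ, k₀ ≤ k → ∀ x : Fin n → ℕ, (∀ i, 1 ≤ x i) →
        |((∏ i, x i : ℕ) : ℝ) - f k α| ≤ c * (f k α) ^ θ →
        ∀ b : Fin n → ℤ, (∀ i, b i ≠ 0) → (∀ i, |(b i : ℝ)| ≤ ((∏ j, x j : ℕ) : ℝ) ^ σ) →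
          1 / 2 * (maxExp b : ℝ) / (H x b : ℝ) ≤ |P x b - 1| := by
  obtain ⟨E, h1, h2⟩ := Pool.Agent.R482.ST.windows (Exc n σ) (fun x => ((∏ j, x j : ℕ) : ℝ)) hf hτ hE
    (s := 1 / 2 + n * σ) (by positivity) hθ (count n hn σ hσ)
  refine ⟨E, h1, fun α hα hαE c => ?_⟩
  obtain ⟨k₀, hk⟩ := h2 α hα hαE c
  refine ⟨k₀, fun k hk1 x hx hw b hb0 hb1 => ?_⟩
  by_contra hcon
  push Not at hcon
  exact absurd (hk k hk1 x ⟨hx, b, hb0, hb1, hcon⟩) (not_lt.2 hw)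

/-- **Theorem.** Let `f` be starshaped functions on `(a, ∞)` of exponent of convergence at most `τ ≥ 0` and `θ < 1`. (1) Let
`n ≥ 1` and `σ ≥ 0`. There is a set `E` of Hausdorff dimension at most `(1/2 + n σ + τ) / (1 - θ)` such that for each `α > a`
outside `E`, each `c` and all but finitely many `k`, `|P(x, b) - 1| ≥ (1/2) max |b_j| / H(x, b)` for ALL tuples `x` of `n`
positive integers with `|x_1 ⋯ x_n - f_k(α)| ≤ c f_k(α) ^ θ` and ALL tuples `b` of nonzero integers with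
`|b_j| ≤ (x_1 ⋯ x_n) ^ σ`. (2) There is a set `E` of dimension at most `(1/2 + τ) / (1 - θ)` such that for each `α > a` outside
`E` and ALL `n ≥ 1` there is a `σ > 0` with this property. (3) The functions `v_n x`, `v_n > 0`, are starshaped on `(0, ∞)`, of exponent `τ` if `v` has exponent of convergence at most
`τ`; the functions `x ^ (v_n)`, `v_n ≥ 1`, are starshaped on `(1, ∞)`, of exponent `0` if the sums of `exp (-t v_n)` converge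
for `t > 0`; and the iterates of a map `g` with `g(x) > x` for `x > a` and `g(x) / x` nondecreasing are starshaped on
`(a, ∞)`, of exponent `0`. -/
theorem result :
    (∀ (n : ℕ) (a : ℝ) (f : ℕ → ℝ → ℝ) (τ θ σ : ℝ), 1 ≤ n → Starshaped a f → 0 ≤ τ → ExpLe a f τ → θ < 1 → 0 ≤ σ →
      ∃ E : Set ℝ, dimH E ≤ ENNReal.ofReal ((1 / 2 + n * σ + τ) / (1 - θ)) ∧ ∀ α : ℝ, a < α → α ∉ E → ∀ c : ℝ,
        ∃ k₀ : ℕ, ∀ k : ℕ, k₀ ≤ k → ∀ x : Fin n → ℕ, (∀ i, 1 ≤ x i) →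
          |((∏ i, x i : ℕ) : ℝ) - f k α| ≤ c * (f k α) ^ θ →
          ∀ b : Fin n → ℤ, (∀ i, b i ≠ 0) → (∀ i, |(b i : ℝ)| ≤ ((∏ j, x j : ℕ) : ℝ) ^ σ) →
            1 / 2 * (maxExp b : ℝ) / (H x b : ℝ) ≤ |P x b - 1|) ∧
    (∀ (a : ℝ) (f : ℕ → ℝ → ℝ) (τ θ : ℝ), Starshaped a f → 0 ≤ τ → ExpLe a f τ → θ < 1 →
      ∃ E : Set ℝ, dimH E ≤ ENNReal.ofReal ((1 / 2 + τ) / (1 - θ)) ∧ ∀ α : ℝ, a < α → α ∉ E → ∀ n : ℕ, 1 ≤ n →
        ∃ σ : ℝ, 0 < σ ∧ ∀ c : ℝ, ∃ k₀ : ℕ, ∀ k : ℕ, k₀ ≤ k → ∀ x : Fin n → ℕ, (∀ i, 1 ≤ x i) →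
          |((∏ i, x i : ℕ) : ℝ) - f k α| ≤ c * (f k α) ^ θ →
          ∀ b : Fin n → ℤ, (∀ i, b i ≠ 0) → (∀ i, |(b i : ℝ)| ≤ ((∏ j, x j : ℕ) : ℝ) ^ σ) →
            1 / 2 * (maxExp b : ℝ) / (H x b : ℝ) ≤ |P x b - 1|) ∧
    (∀ (v : ℕ → ℝ) (τ : ℝ), (∀ n, 0 < v n) → (∀ t : ℝ, τ < t → Summable (fun n : ℕ => (v n) ^ (-t))) →
      Starshaped 0 (fun n x => v n * x) ∧ ExpLe 0 (fun n x => v n * x) τ) ∧
    (∀ v : ℕ → ℝ, (∀ n, 1 ≤ v n) → (∀ t : ℝ, 0 < t → Summable fun n : ℕ => Real.exp (-(t * v n))) →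
      Starshaped 1 (fun n x => x ^ (v n)) ∧ ExpLe 1 (fun n x => x ^ (v n)) 0) ∧
    (∀ (a : ℝ) (g : ℝ → ℝ), 0 ≤ a → (∀ x y : ℝ, a < x → x ≤ y → g x / x ≤ g y / y) → (∀ x : ℝ, a < x → x < g x) →
      Starshaped a (fun n x => g^[n] x) ∧ ExpLe a (fun n x => g^[n] x) 0) := by
  refine ⟨fun n a f τ θ σ hn hf hτ hE hθ hσ => win hn hσ hf hτ hE hθ, fun a f τ θ hf hτ hE hθ => ?_,
    Pool.Agent.R482.ST.ex_mul, Pool.Agent.R482.ST.ex_pow, Pool.Agent.R482.ST.ex_orbit⟩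
  have hall : ∀ n m : ℕ, ∃ E : Set ℝ,
      dimH E ≤ ENNReal.ofReal ((1 / 2 + ((n + 1 : ℕ) : ℝ) * (1 / ((m : ℝ) + 1)) + τ) / (1 - θ)) ∧
      ∀ α : ℝ, a < α → α ∉ E → ∀ c : ℝ, ∃ k₀ : ℕ, ∀ k : ℕ, k₀ ≤ k → ∀ x : Fin (n + 1) → ℕ, (∀ i, 1 ≤ x i) →
        |((∏ i, x i : ℕ) : ℝ) - f k α| ≤ c * (f k α) ^ θ →
        ∀ b : Fin (n + 1) → ℤ, (∀ i, b i ≠ 0) → (∀ i, |(b i : ℝ)| ≤ ((∏ j, x j : ℕ) : ℝ) ^ (1 / ((m : ℝ) + 1))) →
          1 / 2 * (maxExp b : ℝ) / (H x b : ℝ) ≤ |P x b - 1| := fun n m =>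
    win (by omega) (by positivity) hf hτ hE hθ
  choose G hG1 hG2 using hall
  refine ⟨⋃ n, ⋂ m, G n m, ?_, fun α hα hαE n hn => ?_⟩
  · rw [dimH_iUnion]
    refine iSup_le fun n => ?_
    have hlim : Tendsto (fun m : ℕ => ENNReal.ofReal
        ((1 / 2 + ((n + 1 : ℕ) : ℝ) * (1 / ((m : ℝ) + 1)) + τ) / (1 - θ))) atTop
        (𝓝 (ENNReal.ofReal ((1 / 2 + ((n + 1 : ℕ) : ℝ) * 0 + τ) / (1 - θ)))) :=
      ENNReal.tendsto_ofReal ((((tendsto_one_div_add_atTop_nhds_zero_nat.const_mul _).const_add (1 / 2)).add_const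
        τ).div_const (1 - θ))
    rw [mul_zero, add_zero] at hlim
    exact ge_of_tendsto' hlim fun m => (dimH_mono (Set.iInter_subset _ m)).trans (hG1 n m)
  · obtain ⟨n, rfl⟩ : ∃ m, n = m + 1 := ⟨n - 1, by omega⟩
    have h1 : α ∉ ⋂ m, G n m := fun h => hαE (Set.mem_iUnion.2 ⟨n, h⟩)
    rw [Set.mem_iInter] at h1
    push Not at h1
    obtain ⟨m, hm⟩ := h1
    exact ⟨1 / ((m : ℝ) + 1), by positivity, hG2 n m α hα hm⟩

end Pool.Agent.Results.MP_e07dae_nt.StarshapedWindows
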